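import Mathlib

set_option autoImplicit false

namespace Q117.K3t

open Finset

variable {V : Type} [Fintype V] [DecidableEq V]

/-- Counting the threshold functions compatible with a set of edges. -/
lemma card_theta (q : ℕ) (hq : 0 < q) (W : Sym2 V → ℕ) (hW : ∀ e, W e ≤ q)
    (T : Finset (Sym2 V)) :
    ((univ.filter (fun θ : Sym2 V → Fin q => ∀ e ∈ T, (θ e : ℕ) < W e)).card : ℝ) =
      (Fintype.card (Sym2 V → Fin q) : ℝ) * ∏ e ∈ T, ((W e : ℝ) / q) := by
  have h1 : univ.filter (fun θ : Sym2 V → Fin q => ∀ e ∈ T, (θ e : ℕ) < W e) =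
      Fintype.piFinset (fun e => if e ∈ T then univ.filter (fun j : Fin q => (j : ℕ) < W e)
        else univ) := by
    ext θ
    simp only [mem_filter, mem_univ, true_and, Fintype.mem_piFinset]
    constructor
    · intro h e
      by_cases he : e ∈ T
      · rw [if_pos he, mem_filter]
        exact ⟨mem_univ _, h e he⟩
      · rw [if_neg he]; exact mem_univ _
    · intro h e he
      have := h e
      rw [if_pos he, mem_filter] at this
      exact this.2
  have h2 : ∀ e, (univ.filter (fun j : Fin q => (j : ℕ) < W e)).card = W e := by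
    intro e
    rw [Fin.card_filter_val_lt]
    exact min_eq_right (hW e)
  have hq' : (q : ℝ) ≠ 0 := by
    have : (0 : ℝ) < q := by exact_mod_cast hq
    exact this.ne'
  rw [h1, Fintype.card_piFinset]
  push_cast
  have h3 : ∀ e : Sym2 V, ((if e ∈ T then univ.filter (fun j : Fin q => (j : ℕ) < W e)
      else univ).card : ℝ) = (q : ℝ) * (if e ∈ T then ((W e : ℝ) / q) else 1) := by
    intro e
    by_cases he : e ∈ T
    · rw [if_pos he, if_pos he, h2 e]
      field_simp
    · rw [if_neg he, if_neg he]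
      simp
  rw [Finset.prod_congr rfl (fun e _ => h3 e), Finset.prod_mul_distrib]
  rw [Finset.prod_ite_mem]
  simp

/-- The sampled relation. -/
def rel {q : ℕ} (W : Sym2 V → ℕ) (θ : Sym2 V → Fin q) (x y : V) : Prop :=
  (θ s(x, y) : ℕ) < W s(x, y)

instance {q : ℕ} (W : Sym2 V → ℕ) (θ : Sym2 V → Fin q) : DecidableRel (rel W θ) :=
  fun x y => inferInstanceAs (Decidable ((θ s(x, y) : ℕ) < W s(x, y)))

/-- homomorphisms of `K_{3,t}` -/
def HomA (R : V → V → Prop) (t : ℕ) : Set ((Fin 3 → V) × (Fin t → V)) :=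
  {p | ∀ i j, R (p.1 i) (p.2 j)}

/-- homomorphisms of `K_3` -/
def HomB (R : V → V → Prop) : Set (Fin 3 → V) :=
  {p | R (p 0) (p 1) ∧ R (p 0) (p 2) ∧ R (p 1) (p 2)}

/-- injective pairs -/
def Inj (t : ℕ) (p : (Fin 3 → V) × (Fin t → V)) : Prop :=
  Function.Injective (Sum.elim p.1 p.2)

open scoped Classical in
lemma countA_inj (q : ℕ) (hq : 0 < q) (W : Sym2 V → ℕ) (hW : ∀ e, W e ≤ q) (t : ℕ)
    (p : (Fin 3 → V) × (Fin t → V)) (hp : Inj t p) :
    ((univ.filter (fun θ : Sym2 V → Fin q => p ∈ HomA (rel W θ) t)).card : ℝ) =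
      (Fintype.card (Sym2 V → Fin q) : ℝ) *
        ∏ j : Fin t, ∏ i : Fin 3, ((W s(p.1 i, p.2 j) : ℝ) / q) := by
  classical
  set T : Finset (Sym2 V) := (univ : Finset (Fin t × Fin 3)).image
    (fun x => s(p.1 x.2, p.2 x.1)) with hT
  have h1 : univ.filter (fun θ : Sym2 V → Fin q => p ∈ HomA (rel W θ) t) =
      univ.filter (fun θ : Sym2 V → Fin q => ∀ e ∈ T, (θ e : ℕ) < W e) := by
    ext θ
    simp only [mem_filter, mem_univ, true_and, hT, mem_image, Prod.exists]
    constructor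
    · rintro h e ⟨j, i, rfl⟩
      exact h i j
    · intro h i j
      exact h _ ⟨j, i, rfl⟩
  rw [h1, card_theta q hq W hW T]
  congr 1
  rw [hT, Finset.prod_image, ← Finset.univ_product_univ, Finset.prod_product]
  rintro ⟨j, i⟩ - ⟨j', i'⟩ - h
  simp only [Sym2.eq_iff] at h
  rcases h with ⟨h1, h2⟩ | ⟨h1, h2⟩
  · have e1 : (Sum.inl i : Fin 3 ⊕ Fin t) = Sum.inl i' := hp h1
    have e2 : (Sum.inr j : Fin 3 ⊕ Fin t) = Sum.inr j' := hp h2
    rw [Sum.inl.inj e1, Sum.inr.inj e2]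
  · have e1 : (Sum.inl i : Fin 3 ⊕ Fin t) = Sum.inr j' := hp h1
    exact absurd e1 (by simp)

open scoped Classical in
lemma countB_inj (q : ℕ) (hq : 0 < q) (W : Sym2 V → ℕ) (hW : ∀ e, W e ≤ q)
    (p : Fin 3 → V) (hp : Function.Injective p) :
    ((univ.filter (fun θ : Sym2 V → Fin q => p ∈ HomB (rel W θ))).card : ℝ) =
      (Fintype.card (Sym2 V → Fin q) : ℝ) *
        (((W s(p 0, p 1) : ℝ) / q) * ((W s(p 0, p 2) : ℝ) / q) * ((W s(p 1, p 2) : ℝ) / q)) := by
  classical
  set T : Finset (Sym2 V) := {s(p 0, p 1), s(p 0, p 2), s(p 1, p 2)} with hT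
  have h1 : univ.filter (fun θ : Sym2 V → Fin q => p ∈ HomB (rel W θ)) =
      univ.filter (fun θ : Sym2 V → Fin q => ∀ e ∈ T, (θ e : ℕ) < W e) := by
    ext θ
    simp only [mem_filter, mem_univ, true_and, hT, mem_insert, mem_singleton, forall_eq_or_imp,
      forall_eq]
    rfl
  rw [h1, card_theta q hq W hW T]
  congr 1
  have n01 : p 0 ≠ p 1 := fun h => absurd (hp h) (by decide)
  have n02 : p 0 ≠ p 2 := fun h => absurd (hp h) (by decide)
  have n12 : p 1 ≠ p 2 := fun h => absurd (hp h) (by decide)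
  rw [hT, Finset.prod_insert, Finset.prod_insert, Finset.prod_singleton]
  · ring
  · simp only [mem_singleton, Sym2.eq_iff]
    rintro (⟨h1, h2⟩ | ⟨h1, h2⟩)
    · exact n01 h1
    · exact n02 h1
  · simp only [mem_insert, mem_singleton, Sym2.eq_iff]
    rintro ((⟨h1, h2⟩ | ⟨h1, h2⟩) | (⟨h1, h2⟩ | ⟨h1, h2⟩))
    · exact n12 h2
    · exact n02 h1
    · exact n01 h1
    · exact n02 h1

/-- weighted count of `K_{3,t}` -/
noncomputable def SA (ω : Sym2 V → ℝ) (t : ℕ) : ℝ :=
  ∑ p : (Fin 3 → V) × (Fin t → V), ∏ j : Fin t, ∏ i : Fin 3, ω s(p.1 i, p.2 j)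

/-- weighted count of `K_3` -/
noncomputable def SB (ω : Sym2 V → ℝ) : ℝ :=
  ∑ p : Fin 3 → V, ω s(p 0, p 1) * ω s(p 0, p 2) * ω s(p 1, p 2)

/-- A bound on the number of non-injective maps. -/
lemma noninj_card {ι : Type} [Fintype ι] [DecidableEq ι] :
    ((univ.filter (fun f : ι → V => ¬ Function.Injective f)).card : ℝ) * Fintype.card V ≤
      (Fintype.card ι : ℝ) ^ 2 * (Fintype.card V : ℝ) ^ (Fintype.card ι) := by
  classical
  have hsub : univ.filter (fun f : ι → V => ¬ Function.Injective f) ⊆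
      (univ.filter (fun p : ι × ι => p.1 ≠ p.2)).biUnion
        (fun p => univ.filter (fun f : ι → V => f p.1 = f p.2)) := by
    intro f hf
    rw [mem_filter] at hf
    have h2 := hf.2
    rw [Function.Injective] at h2
    push Not at h2
    obtain ⟨a, b, hab, hne⟩ := h2
    rw [mem_biUnion]
    exact ⟨(a, b), by simp [hne], by simp [hab]⟩
  have h1 := (Finset.card_le_card hsub).trans Finset.card_biUnion_le
  have h2 : ∀ p ∈ univ.filter (fun p : ι × ι => p.1 ≠ p.2),
      (univ.filter (fun f : ι → V => f p.1 = f p.2)).card * Fintype.card V ≤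
        Fintype.card V ^ Fintype.card ι := by
    intro p hp
    rw [mem_filter] at hp
    have hne := hp.2
    rw [← Fintype.card_fun, ← Finset.card_univ (α := V), ← Finset.card_product]
    rw [← Finset.card_univ (α := ι → V)]
    apply Finset.card_le_card_of_injOn (fun x => Function.update x.1 p.1 x.2)
    · intro x _
      simp
    · rintro ⟨f, a⟩ hf ⟨g, b⟩ hg h
      simp only [coe_product, Set.mem_prod, coe_filter, mem_univ, true_and, coe_univ,
        Set.mem_univ, and_true] at hf hg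
      have hf' : f p.1 = f p.2 := hf
      have hg' : g p.1 = g p.2 := hg
      simp only at h
      have hab : a = b := by
        have := congrFun h p.1
        simpa using this
      have hfg : f = g := by
        funext i
        by_cases hi : i = p.1
        · rw [hi, hf', hg']
          have := congrFun h p.2
          rwa [Function.update_of_ne (Ne.symm hne), Function.update_of_ne (Ne.symm hne)] at this
        · have := congrFun h i
          rwa [Function.update_of_ne hi, Function.update_of_ne hi] at this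
      rw [hab, hfg]
  have h3 : (univ.filter (fun f : ι → V => ¬ Function.Injective f)).card * Fintype.card V ≤
      Fintype.card ι ^ 2 * Fintype.card V ^ Fintype.card ι := by
    calc (univ.filter (fun f : ι → V => ¬ Function.Injective f)).card * Fintype.card V
        ≤ (∑ p ∈ univ.filter (fun p : ι × ι => p.1 ≠ p.2),
          (univ.filter (fun f : ι → V => f p.1 = f p.2)).card) * Fintype.card V :=
          Nat.mul_le_mul_right _ h1
      _ = ∑ p ∈ univ.filter (fun p : ι × ι => p.1 ≠ p.2),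
          (univ.filter (fun f : ι → V => f p.1 = f p.2)).card * Fintype.card V := by
          rw [Finset.sum_mul]
      _ ≤ ∑ p ∈ univ.filter (fun p : ι × ι => p.1 ≠ p.2), Fintype.card V ^ Fintype.card ι :=
          Finset.sum_le_sum h2
      _ ≤ ∑ p : ι × ι, Fintype.card V ^ Fintype.card ι :=
          Finset.sum_le_sum_of_subset (Finset.filter_subset _ _)
      _ = _ := by
          rw [Finset.sum_const, smul_eq_mul, Finset.card_univ, Fintype.card_prod]
          ring
  exact_mod_cast h3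


lemma pow_card_eq (t : ℕ) :
    (Fintype.card V : ℝ) ^ (Fintype.card (Fin 3 ⊕ Fin t)) = (Fintype.card V : ℝ) ^ (t + 3) := by
  congr 1
  simp [Fintype.card_sum, add_comm]

open scoped Classical in
lemma noninjA (t : ℕ) (hV : 0 < Fintype.card V) :
    ((univ.filter (fun p : (Fin 3 → V) × (Fin t → V) => ¬ Inj t p)).card : ℝ) ≤
      ((t : ℝ) + 3) ^ 2 * (Fintype.card V : ℝ) ^ (t + 2) := by
  have h := noninj_card (V := V) (ι := Fin 3 ⊕ Fin t)
  have h1 : (univ.filter (fun p : (Fin 3 → V) × (Fin t → V) => ¬ Inj t p)).card =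
      (univ.filter (fun f : Fin 3 ⊕ Fin t → V => ¬ Function.Injective f)).card := by
    refine Finset.card_bij' (fun p _ => Sum.elim p.1 p.2)
      (fun f _ => (fun i => f (Sum.inl i), fun j => f (Sum.inr j))) ?_ ?_ ?_ ?_
    · intro p hp
      rw [mem_filter] at hp ⊢
      exact ⟨mem_univ _, hp.2⟩
    · intro f hf
      rw [mem_filter] at hf ⊢
      refine ⟨mem_univ _, ?_⟩
      unfold Inj
      have : Sum.elim (fun i => f (Sum.inl i)) (fun j => f (Sum.inr j)) = f := by
        funext x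
        cases x <;> rfl
      rw [this]
      exact hf.2
    · intro p _
      rfl
    · intro f _
      funext x
      cases x <;> rfl
  rw [h1]
  rw [pow_card_eq] at h
  have hV' : (0 : ℝ) < Fintype.card V := by exact_mod_cast hV
  have h2 : (Fintype.card (Fin 3 ⊕ Fin t) : ℝ) = (t : ℝ) + 3 := by
    simp [Fintype.card_sum, add_comm]
  rw [h2] at h
  have h3 : ((t : ℝ) + 3) ^ 2 * (Fintype.card V : ℝ) ^ (t + 3) =
      (((t : ℝ) + 3) ^ 2 * (Fintype.card V : ℝ) ^ (t + 2)) * Fintype.card V := by ring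
  rw [h3] at h
  exact le_of_mul_le_mul_right h hV'

open scoped Classical in
lemma noninjB (hV : 0 < Fintype.card V) :
    ((univ.filter (fun p : Fin 3 → V => ¬ Function.Injective p)).card : ℝ) ≤
      9 * (Fintype.card V : ℝ) ^ 2 := by
  have h := noninj_card (V := V) (ι := Fin 3)
  have hV' : (0 : ℝ) < Fintype.card V := by exact_mod_cast hV
  rw [Fintype.card_fin] at h
  have h3 : ((3 : ℕ) : ℝ) ^ 2 * (Fintype.card V : ℝ) ^ 3 =
      (9 * (Fintype.card V : ℝ) ^ 2) * Fintype.card V := by push_cast; ring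
  rw [h3] at h
  exact le_of_mul_le_mul_right h hV'

lemma sum_ncard {α Θ : Type} [Fintype α] [Fintype Θ] (S : Θ → Set α) :
    (∑ θ, ((S θ).ncard : ℝ)) = ∑ p : α, (({θ | p ∈ S θ} : Set Θ).ncard : ℝ) := by
  classical
  have h1 : ∀ θ, ((S θ).ncard : ℝ) = ∑ p : α, (if p ∈ S θ then (1 : ℝ) else 0) := by
    intro θ
    rw [Set.ncard_eq_toFinset_card', Finset.sum_boole]
    congr 2
    ext; simp
  have h2 : ∀ p : α, (({θ | p ∈ S θ} : Set Θ).ncard : ℝ) =
      ∑ θ, (if p ∈ S θ then (1 : ℝ) else 0) := by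
    intro p
    rw [Set.ncard_eq_toFinset_card', Finset.sum_boole]
    congr 2
    ext; simp
  simp only [h1, h2]
  exact Finset.sum_comm

lemma avgA (q : ℕ) (hq : 0 < q) (W : Sym2 V → ℕ) (hW : ∀ e, W e ≤ q) (t : ℕ)
    (hV : 0 < Fintype.card V) :
    (∑ θ : Sym2 V → Fin q, ((HomA (rel W θ) t).ncard : ℝ)) ≤
      (Fintype.card (Sym2 V → Fin q) : ℝ) * (SA (fun e => (W e : ℝ) / q) t +
        ((t : ℝ) + 3) ^ 2 * (Fintype.card V : ℝ) ^ (t + 2)) := by
  classical
  rw [sum_ncard]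
  set Θ : ℝ := (Fintype.card (Sym2 V → Fin q) : ℝ) with hΘ
  have hΘ0 : 0 ≤ Θ := by positivity
  have h1 : ∀ p : (Fin 3 → V) × (Fin t → V),
      (({θ | p ∈ HomA (rel W θ) t} : Set (Sym2 V → Fin q)).ncard : ℝ) ≤
        Θ * ∏ j : Fin t, ∏ i : Fin 3, ((W s(p.1 i, p.2 j) : ℝ) / q) +
        Θ * (if ¬ Inj t p then (1 : ℝ) else 0) := by
    intro p
    have e1 : (({θ | p ∈ HomA (rel W θ) t} : Set (Sym2 V → Fin q)).ncard : ℝ) =
      ((univ.filter (fun θ : Sym2 V → Fin q => p ∈ HomA (rel W θ) t)).card : ℝ) := by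
      rw [Set.ncard_eq_toFinset_card']
      congr 2
      ext; simp
    by_cases hp : Inj t p
    · rw [e1, countA_inj q hq W hW t p hp, if_neg (not_not.2 hp), mul_zero, add_zero]
    · rw [if_pos hp, mul_one, e1]
      have h2 : ((univ.filter (fun θ : Sym2 V → Fin q => p ∈ HomA (rel W θ) t)).card : ℝ) ≤ Θ := by
        rw [hΘ]
        exact_mod_cast Finset.card_le_univ _
      have h3 : 0 ≤ Θ * ∏ j : Fin t, ∏ i : Fin 3, ((W s(p.1 i, p.2 j) : ℝ) / q) := by positivity
      linarith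
  refine (Finset.sum_le_sum (fun p _ => h1 p)).trans ?_
  rw [Finset.sum_add_distrib, ← Finset.mul_sum, ← Finset.mul_sum, ← mul_add]
  apply mul_le_mul_of_nonneg_left _ hΘ0
  have h4 : (∑ p : (Fin 3 → V) × (Fin t → V), (if ¬ Inj t p then (1 : ℝ) else 0)) =
      ((univ.filter (fun p : (Fin 3 → V) × (Fin t → V) => ¬ Inj t p)).card : ℝ) := by
    rw [Finset.sum_boole]
  rw [h4]
  have := noninjA (V := V) t hV
  unfold SA
  linarith

lemma avgB (q : ℕ) (hq : 0 < q) (W : Sym2 V → ℕ) (hW : ∀ e, W e ≤ q)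
    (hV : 0 < Fintype.card V) :
    (Fintype.card (Sym2 V → Fin q) : ℝ) * (SB (fun e => (W e : ℝ) / q) -
        9 * (Fintype.card V : ℝ) ^ 2) ≤
    (∑ θ : Sym2 V → Fin q, ((HomB (rel W θ)).ncard : ℝ)) := by
  classical
  rw [sum_ncard]
  set Θ : ℝ := (Fintype.card (Sym2 V → Fin q) : ℝ) with hΘ
  have hΘ0 : 0 ≤ Θ := by positivity
  have hq' : (0 : ℝ) < q := by exact_mod_cast hq
  have hω1 : ∀ e, (W e : ℝ) / q ≤ 1 := by
    intro e
    rw [div_le_one hq']
    exact_mod_cast hW e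
  have hω0 : ∀ e, 0 ≤ (W e : ℝ) / q := by
    intro e
    positivity
  have h1 : ∀ p : Fin 3 → V,
      Θ * (((W s(p 0, p 1) : ℝ) / q) * ((W s(p 0, p 2) : ℝ) / q) * ((W s(p 1, p 2) : ℝ) / q)) -
        Θ * (if ¬ Function.Injective p then (1 : ℝ) else 0) ≤
      (({θ | p ∈ HomB (rel W θ)} : Set (Sym2 V → Fin q)).ncard : ℝ) := by
    intro p
    have e1 : (({θ | p ∈ HomB (rel W θ)} : Set (Sym2 V → Fin q)).ncard : ℝ) =
      ((univ.filter (fun θ : Sym2 V → Fin q => p ∈ HomB (rel W θ))).card : ℝ) := by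
      rw [Set.ncard_eq_toFinset_card']
      congr 2
      ext; simp
    by_cases hp : Function.Injective p
    · rw [e1, countB_inj q hq W hW p hp, if_neg (not_not.2 hp), mul_zero, sub_zero]
    · rw [if_pos hp, mul_one]
      have h2 : ((W s(p 0, p 1) : ℝ) / q) * ((W s(p 0, p 2) : ℝ) / q) *
          ((W s(p 1, p 2) : ℝ) / q) ≤ 1 := by
        apply mul_le_one₀ _ (hω0 _) (hω1 _)
        exact mul_le_one₀ (hω1 _) (hω0 _) (hω1 _)
      have h3 := mul_le_mul_of_nonneg_left h2 hΘ0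
      have h5 : (0 : ℝ) ≤ (({θ | p ∈ HomB (rel W θ)} : Set (Sym2 V → Fin q)).ncard : ℝ) := by
        positivity
      linarith
  refine le_trans ?_ (Finset.sum_le_sum (fun p _ => h1 p))
  rw [Finset.sum_sub_distrib, ← Finset.mul_sum, ← Finset.mul_sum, ← mul_sub]
  apply mul_le_mul_of_nonneg_left _ hΘ0
  have h4 : (∑ p : Fin 3 → V, (if ¬ Function.Injective p then (1 : ℝ) else 0)) =
      ((univ.filter (fun p : Fin 3 → V => ¬ Function.Injective p)).card : ℝ) := by
    rw [Finset.sum_boole]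
  rw [h4]
  have := noninjB (V := V) hV
  unfold SB
  linarith

/-- The sampling lemma: a weighted example gives an unweighted one. -/
theorem sampling (q : ℕ) (hq : 0 < q) (W : Sym2 V → ℕ) (hW : ∀ e, W e ≤ q) (t : ℕ)
    (hV : 0 < Fintype.card V)
    (hpos : 9 * (Fintype.card V : ℝ) ^ 2 ≤ SB (fun e => (W e : ℝ) / q))
    (H : (SA (fun e => (W e : ℝ) / q) t + ((t : ℝ) + 3) ^ 2 * (Fintype.card V : ℝ) ^ (t + 2)) *
      (Fintype.card V : ℝ) ^ (2 * t - 3) <
      (SB (fun e => (W e : ℝ) / q) - 9 * (Fintype.card V : ℝ) ^ 2) ^ t) :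
    ∃ θ : Sym2 V → Fin q, ((HomA (rel W θ) t).ncard : ℝ) * (Fintype.card V : ℝ) ^ (2 * t - 3) <
      ((HomB (rel W θ)).ncard : ℝ) ^ t := by
  classical
  by_contra hcon
  push Not at hcon
  have h1 : ∀ θ : Sym2 V → Fin q, ((HomB (rel W θ)).ncard : ℝ) ^ t ≤
      ((HomA (rel W θ) t).ncard : ℝ) * (Fintype.card V : ℝ) ^ (2 * t - 3) := hcon
  set Θ : ℝ := (Fintype.card (Sym2 V → Fin q) : ℝ) with hΘ
  have hΘpos : 0 < Θ := by
    have : Nonempty (Fin q) := ⟨⟨0, hq⟩⟩
    rw [hΘ]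
    exact_mod_cast Fintype.card_pos
  have hA := avgA q hq W hW t hV
  have hB := avgB q hq W hW hV
  rw [← hΘ] at hA hB
  set A := SA (fun e => (W e : ℝ) / q) t + ((t : ℝ) + 3) ^ 2 * (Fintype.card V : ℝ) ^ (t + 2)
  set B := SB (fun e => (W e : ℝ) / q) - 9 * (Fintype.card V : ℝ) ^ 2 with hBdef
  have hB0 : 0 ≤ B := by rw [hBdef]; linarith
  -- power mean
  have hpm := Real.pow_arith_mean_le_arith_mean_pow (univ : Finset (Sym2 V → Fin q))
    (fun _ => 1 / Θ) (fun θ => ((HomB (rel W θ)).ncard : ℝ)) (by intro _ _; positivity)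
    (by
      rw [Finset.sum_const, Finset.card_univ, nsmul_eq_mul, ← hΘ]
      field_simp) (by intro _ _; positivity) t
  rw [← Finset.mul_sum, ← Finset.mul_sum] at hpm
  have h2 : B ≤ 1 / Θ * ∑ θ : Sym2 V → Fin q, ((HomB (rel W θ)).ncard : ℝ) := by
    rw [one_div, ← div_eq_inv_mul, le_div_iff₀ hΘpos]
    linarith
  have h3 : B ^ t ≤ (1 / Θ * ∑ θ : Sym2 V → Fin q, ((HomB (rel W θ)).ncard : ℝ)) ^ t :=
    pow_le_pow_left₀ hB0 h2 t
  have h4 : ∑ θ : Sym2 V → Fin q, ((HomB (rel W θ)).ncard : ℝ) ^ t ≤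
      (Θ * A) * (Fintype.card V : ℝ) ^ (2 * t - 3) := by
    calc ∑ θ : Sym2 V → Fin q, ((HomB (rel W θ)).ncard : ℝ) ^ t
        ≤ ∑ θ : Sym2 V → Fin q,
          ((HomA (rel W θ) t).ncard : ℝ) * (Fintype.card V : ℝ) ^ (2 * t - 3) :=
          Finset.sum_le_sum (fun θ _ => h1 θ)
      _ = (∑ θ : Sym2 V → Fin q, ((HomA (rel W θ) t).ncard : ℝ)) *
          (Fintype.card V : ℝ) ^ (2 * t - 3) := by rw [Finset.sum_mul]
      _ ≤ _ := mul_le_mul_of_nonneg_right hA (by positivity)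
  have h5 : 1 / Θ * ∑ θ : Sym2 V → Fin q, ((HomB (rel W θ)).ncard : ℝ) ^ t ≤
      A * (Fintype.card V : ℝ) ^ (2 * t - 3) := by
    calc 1 / Θ * ∑ θ : Sym2 V → Fin q, ((HomB (rel W θ)).ncard : ℝ) ^ t
        ≤ 1 / Θ * ((Θ * A) * (Fintype.card V : ℝ) ^ (2 * t - 3)) :=
          mul_le_mul_of_nonneg_left h4 (by positivity)
      _ = _ := by field_simp
  exact absurd (h3.trans (hpm.trans h5)) (not_le.2 H)

end Q117.K3t
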