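import Mathlib
import Pool.Agent.Q117.K3t.Samp

set_option autoImplicit false

namespace Q117.K3t

open Finset Filter Topology

lemma exp_neg_bound (x : ℝ) (hx : 0 ≤ x) : Real.exp (-x) ≤ 1 - x + x ^ 2 := by
  have h1 : 1 + x ≤ Real.exp x := by
    have := Real.add_one_le_exp x
    linarith
  have h2 : Real.exp (-x) * Real.exp x = 1 := by
    rw [← Real.exp_add]; simp
  have h3 : Real.exp (-x) * (1 + x) ≤ Real.exp (-x) * Real.exp x :=
    mul_le_mul_of_nonneg_left h1 (Real.exp_pos _).le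
  rw [h2] at h3
  have h4 : 1 ≤ (1 - x + x ^ 2) * (1 + x) := by nlinarith [pow_nonneg hx 3]
  have h5 : 0 < 1 + x := by linarith
  exact le_of_mul_le_mul_right (h3.trans h4) h5

lemma exp_bound3 (y : ℝ) (h0 : 0 ≤ y) (h1 : y ≤ 1) :
    Real.exp y ≤ 1 + y + y ^ 2 / 2 + 2 / 9 * y ^ 3 := by
  have := Real.exp_bound' h0 h1 (n := 3) (by norm_num)
  simp only [Finset.sum_range_succ, Finset.sum_range_zero, Nat.factorial] at this
  norm_num at this
  linarith

lemma key_ineq (t : ℕ) (ht : 2 ≤ t) (u : ℝ) (hu : u = 1 / (4 * (t : ℝ) - 1)) :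
    1 / 4 * (1 + 3 * u ^ 2) ^ t + 3 / 4 * (1 - u ^ 2) ^ t < (1 + u ^ 3) ^ t := by
  have ht' : (2 : ℝ) ≤ t := by exact_mod_cast ht
  have hden : 0 < 4 * (t : ℝ) - 1 := by linarith
  have hu0 : 0 < u := by rw [hu]; positivity
  have hu7 : u ≤ 1 / 7 := by
    rw [hu]
    apply one_div_le_one_div_of_le (by norm_num)
    linarith
  have hut : (4 * (t : ℝ) - 1) * u = 1 := by
    rw [hu]; field_simp
  have htu : (t : ℝ) * u ≤ 2 / 7 := by nlinarith
  set x := (t : ℝ) * u ^ 2 with hx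
  have hx0 : 0 < x := by positivity
  have hxu : x ≤ 2 / 7 * u := by
    rw [hx]
    nlinarith
  have e1 : (1 + 3 * u ^ 2) ^ t ≤ Real.exp (3 * x) := by
    have h1 : 1 + 3 * u ^ 2 ≤ Real.exp (3 * u ^ 2) := by
      have := Real.add_one_le_exp (3 * u ^ 2)
      linarith
    calc (1 + 3 * u ^ 2) ^ t ≤ (Real.exp (3 * u ^ 2)) ^ t :=
          pow_le_pow_left₀ (by positivity) h1 t
      _ = Real.exp (3 * x) := by
          rw [← Real.exp_nat_mul, hx]
          congr 1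
          ring
  have e2 : (1 - u ^ 2) ^ t ≤ Real.exp (-x) := by
    have h1 : 1 - u ^ 2 ≤ Real.exp (-u ^ 2) := by
      have := Real.add_one_le_exp (-u ^ 2)
      linarith
    have h2 : 0 ≤ 1 - u ^ 2 := by nlinarith
    calc (1 - u ^ 2) ^ t ≤ (Real.exp (-u ^ 2)) ^ t := pow_le_pow_left₀ h2 h1 t
      _ = Real.exp (-x) := by
          rw [← Real.exp_nat_mul, hx]
          congr 1
          ring
  have e3 : 1 + x * u ≤ (1 + u ^ 3) ^ t := by
    have := one_add_mul_le_pow (show (-2 : ℝ) ≤ u ^ 3 by nlinarith [pow_pos hu0 3]) t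
    have h2 : x * u = (t : ℝ) * u ^ 3 := by rw [hx]; ring
    rw [h2]
    exact this
  have e4 := exp_bound3 (3 * x) (by positivity) (by linarith)
  have e5 := exp_neg_bound x hx0.le
  have e6 : 1 / 4 * (1 + 3 * u ^ 2) ^ t + 3 / 4 * (1 - u ^ 2) ^ t ≤
      1 + 15 / 8 * x ^ 2 + 3 / 2 * x ^ 3 := by
    nlinarith
  have hx1 : x ≤ 2 / 49 := by linarith
  have e7 : 15 / 8 * x + 3 / 2 * x ^ 2 < u := by nlinarith
  have e8 : 15 / 8 * x ^ 2 + 3 / 2 * x ^ 3 < x * u := by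
    have := mul_lt_mul_of_pos_left e7 hx0
    nlinarith
  linarith

lemma key_ineq2 (t : ℕ) (ht : 2 ≤ t) (β : ℝ) (hβ : β = 1 - 1 / (2 * (t : ℝ))) :
    (2 * (1 + β ^ 3) ^ t + 6 * (β + β ^ 2) ^ t) * 2 ^ (2 * t) < 8 * (2 + 6 * β ^ 2) ^ t := by
  have ht' : (2 : ℝ) ≤ t := by exact_mod_cast ht
  set u : ℝ := 1 / (4 * (t : ℝ) - 1) with hu
  have hden : 0 < 4 * (t : ℝ) - 1 := by linarith
  have hu0 : 0 < u := by rw [hu]; positivity
  have h1u : 0 < 1 + u := by linarith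
  have hut : (4 * (t : ℝ) - 1) * u = 1 := by
    rw [hu]; field_simp
  have hβt : β * (2 * t) = 2 * t - 1 := by
    rw [hβ]; field_simp
  have hβu : β * (1 + u) = 1 - u := by
    have h2t : (0 : ℝ) < 2 * t := by linarith
    apply mul_right_cancel₀ h2t.ne'
    calc β * (1 + u) * (2 * t) = (β * (2 * t)) * (1 + u) := by ring
      _ = (2 * t - 1) * (1 + u) := by rw [hβt]
      _ = (1 - u) * (2 * t) := by linear_combination hut
  have key := key_ineq t ht u hu
  have hβ' : β = (1 - u) / (1 + u) := by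
    rw [eq_div_iff h1u.ne']
    exact hβu
  have f1 : 1 + β ^ 3 = 2 / (1 + u) ^ 3 * (1 + 3 * u ^ 2) := by
    rw [hβ']; field_simp; ring
  have f2 : β + β ^ 2 = 2 / (1 + u) ^ 3 * (1 - u ^ 2) := by
    rw [hβ']; field_simp; ring
  have f3 : 2 + 6 * β ^ 2 = 8 / (1 + u) ^ 3 * (1 + u ^ 3) := by
    rw [hβ']; field_simp; ring
  have f4 : (2 : ℝ) ^ (2 * t) = 4 ^ t := by rw [pow_mul]; norm_num
  rw [f1, f2, f3, f4, mul_pow, mul_pow, mul_pow]
  have hc : 0 < (8 / (1 + u) ^ 3) ^ t := by positivity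
  have f5 : (2 / (1 + u) ^ 3) ^ t * 4 ^ t = (8 / (1 + u) ^ 3) ^ t := by
    rw [← mul_pow]
    congr 1
    ring
  have f6 : (2 * ((2 / (1 + u) ^ 3) ^ t * (1 + 3 * u ^ 2) ^ t) +
      6 * ((2 / (1 + u) ^ 3) ^ t * (1 - u ^ 2) ^ t)) * 4 ^ t =
      8 * (8 / (1 + u) ^ 3) ^ t * (1 / 4 * (1 + 3 * u ^ 2) ^ t + 3 / 4 * (1 - u ^ 2) ^ t) := by
    rw [← f5]; ring
  rw [f6, ← mul_assoc]
  exact mul_lt_mul_of_pos_left key (by positivity)

/-- The block weights on `Bool × Fin N`. -/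
def Wb (q N : ℕ) (e : Sym2 (Bool × Fin N)) : ℕ :=
  Sym2.lift ⟨fun x y => if x.1 = y.1 then q else q - 1, fun x y => by
    simp only [eq_comm]⟩ e

lemma Wb_mk (q N : ℕ) (x y : Bool × Fin N) :
    Wb q N s(x, y) = if x.1 = y.1 then q else q - 1 := rfl

lemma Wb_le (q N : ℕ) (e : Sym2 (Bool × Fin N)) : Wb q N e ≤ q := by
  induction e using Sym2.ind with
  | _ x y =>
    rw [Wb_mk]
    split_ifs <;> omega

/-- the weight between classes -/
def bw (β : ℝ) (a b : Bool) : ℝ := if a = b then 1 else β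

lemma Wb_real (q N : ℕ) (hq : 0 < q) (x y : Bool × Fin N) :
    (Wb q N s(x, y) : ℝ) / q = bw (1 - 1 / (q : ℝ)) x.1 y.1 := by
  have hq' : (0 : ℝ) < q := by exact_mod_cast hq
  rw [Wb_mk]
  unfold bw
  split_ifs
  · field_simp
  · rw [Nat.cast_sub (by omega)]
    field_simp
    simp

lemma sum3 {V : Type} [Fintype V] [DecidableEq V] (F : V → V → V → ℝ) :
    ∑ x : Fin 3 → V, F (x 0) (x 1) (x 2) = ∑ a, ∑ b, ∑ c, F a b c := by
  have h : ∑ x : Fin 3 → V, F (x 0) (x 1) (x 2) = ∑ p : V × V × V, F p.1 p.2.1 p.2.2 := by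
    apply Fintype.sum_equiv
      { toFun := fun x : Fin 3 → V => ((x 0, x 1, x 2) : V × V × V)
        invFun := fun p => ![p.1, p.2.1, p.2.2]
        left_inv := by
          intro x
          funext i
          fin_cases i <;> rfl
        right_inv := by
          intro p
          rfl }
    intro x
    rfl
  rw [h, Fintype.sum_prod_type]
  apply Finset.sum_congr rfl
  intro a _
  rw [Fintype.sum_prod_type]

lemma sumBF (N : ℕ) (f : Bool → ℝ) :
    ∑ v : Bool × Fin N, f v.1 = N * (f true + f false) := by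
  rw [Fintype.sum_prod_type]
  simp
  ring

lemma tri (N : ℕ) (f : Bool → Bool → Bool → ℝ) :
    ∑ x : Bool × Fin N, ∑ y : Bool × Fin N, ∑ z : Bool × Fin N, f x.1 y.1 z.1 =
      (N : ℝ) ^ 3 * ∑ a : Bool, ∑ b : Bool, ∑ c : Bool, f a b c := by
  have h1 : ∀ a b : Bool, ∑ z : Bool × Fin N, f a b z.1 = N * (f a b true + f a b false) :=
    fun a b => sumBF N (fun c => f a b c)
  simp only [h1]
  have h2 : ∀ a : Bool, ∑ y : Bool × Fin N, (N : ℝ) * (f a y.1 true + f a y.1 false) =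
      N * (N * (f a true true + f a true false) + N * (f a false true + f a false false)) :=
    fun a => sumBF N (fun b => (N : ℝ) * (f a b true + f a b false))
  simp only [h2]
  have h3 := sumBF N (fun a => (N : ℝ) * (N * (f a true true + f a true false) +
    N * (f a false true + f a false false)))
  rw [h3]
  simp only [Fintype.sum_bool]
  ring

lemma SA_block (t q N : ℕ) (hq : 0 < q) (β : ℝ) (hβ : β = 1 - 1 / (q : ℝ)) :
    SA (fun e => (Wb q N e : ℝ) / q) t =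
      (N : ℝ) ^ (t + 3) * (2 * (1 + β ^ 3) ^ t + 6 * (β + β ^ 2) ^ t) := by
  unfold SA
  rw [Fintype.sum_prod_type]
  have h1 : ∀ x : Fin 3 → Bool × Fin N,
      ∑ w : Fin t → Bool × Fin N, ∏ j : Fin t, ∏ i : Fin 3, ((Wb q N s(x i, w j) : ℝ) / q) =
      (∑ v : Bool × Fin N, bw β (x 0).1 v.1 * bw β (x 1).1 v.1 * bw β (x 2).1 v.1) ^ t := by
    intro x
    rw [Fintype.sum_pow]
    apply Finset.sum_congr rfl
    intro w _
    apply Finset.prod_congr rfl
    intro j _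
    rw [Fin.prod_univ_three, Wb_real q N hq, Wb_real q N hq, Wb_real q N hq, hβ]
  rw [Finset.sum_congr rfl (fun x _ => h1 x)]
  have h2 : ∀ a b c : Bool,
      (∑ v : Bool × Fin N, bw β a v.1 * bw β b v.1 * bw β c v.1) =
      N * (bw β a true * bw β b true * bw β c true +
        bw β a false * bw β b false * bw β c false) := by
    intro a b c
    exact sumBF N (fun v => bw β a v * bw β b v * bw β c v)
  simp only [h2]
  rw [sum3 (fun x y z : Bool × Fin N => (N * (bw β x.1 true * bw β y.1 true * bw β z.1 true +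
        bw β x.1 false * bw β y.1 false * bw β z.1 false)) ^ t)]
  rw [tri N (fun a b c => (N * (bw β a true * bw β b true * bw β c true +
        bw β a false * bw β b false * bw β c false)) ^ t)]
  simp only [Fintype.sum_bool, bw, if_true, Bool.true_eq_false, Bool.false_eq_true, if_false]
  simp only [mul_pow]
  have e1 : (1 : ℝ) * 1 * 1 + β * β * β = 1 + β ^ 3 := by ring
  have e2 : (1 : ℝ) * 1 * β + β * β * 1 = β + β ^ 2 := by ring
  have e3 : (1 : ℝ) * β * 1 + β * 1 * β = β + β ^ 2 := by ring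
  have e4 : (1 : ℝ) * β * β + β * 1 * 1 = β + β ^ 2 := by ring
  have e5 : β * (1 : ℝ) * 1 + 1 * β * β = β + β ^ 2 := by ring
  have e6 : β * (1 : ℝ) * β + 1 * β * 1 = β + β ^ 2 := by ring
  have e7 : β * β * (1 : ℝ) + 1 * 1 * β = β + β ^ 2 := by ring
  have e8 : β * β * β + (1 : ℝ) * 1 * 1 = 1 + β ^ 3 := by ring
  rw [e1, e2, e3, e4, e5, e6, e7, e8]
  ring

lemma SB_block (q N : ℕ) (hq : 0 < q) (β : ℝ) (hβ : β = 1 - 1 / (q : ℝ)) :
    SB (fun e => (Wb q N e : ℝ) / q) = (N : ℝ) ^ 3 * (2 + 6 * β ^ 2) := by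
  unfold SB
  simp only [Wb_real q N hq, ← hβ]
  rw [sum3 (fun x y z : Bool × Fin N => bw β x.1 y.1 * bw β x.1 z.1 * bw β y.1 z.1)]
  rw [tri N (fun a b c => bw β a b * bw β a c * bw β b c)]
  simp only [Fintype.sum_bool, bw, if_true, Bool.true_eq_false, Bool.false_eq_true, if_false]
  ring

/-- For every `t ≥ 2` there is a finite symmetric relation whose `K_{3,t}` density is smaller
than the `t`-th power of its triangle density. -/
theorem exists_rel (t : ℕ) (ht : 2 ≤ t) :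
    ∃ N : ℕ, 3 ≤ N ∧ ∃ R : (Bool × Fin N) → (Bool × Fin N) → Prop, (∀ x y, R x y → R y x) ∧
      (Fintype.card (Bool × Fin N) : ℝ) ^ 2 < (HomB R).ncard ∧
      ((HomA R t).ncard : ℝ) * (Fintype.card (Bool × Fin N) : ℝ) ^ (2 * t - 3) <
        ((HomB R).ncard : ℝ) ^ t := by
  set q : ℕ := 2 * t with hq
  have hq0 : 0 < q := by omega
  set β : ℝ := 1 - 1 / (q : ℝ) with hβ
  have hβ2 : β = 1 - 1 / (2 * (t : ℝ)) := by
    rw [hβ, hq]; push_cast; rfl
  set α : ℝ := 2 * (1 + β ^ 3) ^ t + 6 * (β + β ^ 2) ^ t with hα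
  set b : ℝ := 2 + 6 * β ^ 2 with hb
  have hb2 : 2 ≤ b := by rw [hb]; nlinarith [sq_nonneg β]
  have hkey := key_ineq2 t ht β hβ2
  rw [← hα, ← hb] at hkey
  have h8 : (2 : ℝ) ^ (2 * t) = 8 * 2 ^ (2 * t - 3) := by
    have : 2 * t = 3 + (2 * t - 3) := by omega
    conv_lhs => rw [this, pow_add]
    norm_num
  have hlim : α * 2 ^ (2 * t - 3) < b ^ t := by
    rw [h8] at hkey
    nlinarith
  have hf : Tendsto (fun N : ℕ => (α + (((t : ℝ) + 3) ^ 2 * 2 ^ (t + 2)) / (N : ℝ)) *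
      2 ^ (2 * t - 3)) atTop (𝓝 ((α + 0) * 2 ^ (2 * t - 3))) :=
    ((tendsto_const_div_atTop_nhds_zero_nat _).const_add α).mul_const _
  have hg : Tendsto (fun N : ℕ => (b - 36 / (N : ℝ)) ^ t) atTop (𝓝 ((b - 0) ^ t)) :=
    ((tendsto_const_div_atTop_nhds_zero_nat _).const_sub b).pow t
  rw [add_zero] at hf
  rw [sub_zero] at hg
  have hev := hf.eventually_lt hg hlim
  obtain ⟨N₀, hN₀⟩ := eventually_atTop.1 hev
  set N := max N₀ 36 with hN
  have hlt := hN₀ N (le_max_left _ _)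
  have hN36 : 36 ≤ N := le_max_right _ _
  have hNr : (36 : ℝ) ≤ N := by exact_mod_cast hN36
  have hNpos : (0 : ℝ) < N := by linarith
  have hcard : (Fintype.card (Bool × Fin N) : ℝ) = 2 * N := by
    rw [Fintype.card_prod, Fintype.card_bool, Fintype.card_fin]
    push_cast; ring
  have hcard0 : 0 < Fintype.card (Bool × Fin N) := by
    have : (0 : ℝ) < (Fintype.card (Bool × Fin N) : ℝ) := by rw [hcard]; linarith
    exact_mod_cast this
  have hSA := SA_block t q N hq0 β hβ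
  have hSB := SB_block q N hq0 β hβ
  rw [← hα] at hSA
  rw [← hb] at hSB
  have hSBpos : 9 * (Fintype.card (Bool × Fin N) : ℝ) ^ 2 ≤
      SB (fun e => (Wb q N e : ℝ) / q) := by
    rw [hSB, hcard]
    have h1 : (N : ℝ) ^ 3 * 2 ≤ (N : ℝ) ^ 3 * b := mul_le_mul_of_nonneg_left hb2 (by positivity)
    have h2 : 9 * (2 * (N : ℝ)) ^ 2 = 36 * (N : ℝ) ^ 2 := by ring
    have h3 : 36 * (N : ℝ) ^ 2 ≤ N * (N : ℝ) ^ 2 := mul_le_mul_of_nonneg_right hNr (by positivity)
    have h4 : (N : ℝ) * (N : ℝ) ^ 2 = (N : ℝ) ^ 3 := by ring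
    have h5 : 0 ≤ (N : ℝ) ^ 3 := by positivity
    rw [h2]
    linarith
  obtain ⟨θ, hθ⟩ := sampling q hq0 (Wb q N) (Wb_le q N) t hcard0 hSBpos (by
    rw [hSA, hSB, hcard]
    have e1 : ((N : ℝ) ^ (t + 3) * α + ((t : ℝ) + 3) ^ 2 * (2 * N) ^ (t + 2)) *
        (2 * (N : ℝ)) ^ (2 * t - 3) = (N : ℝ) ^ (3 * t) *
        ((α + (((t : ℝ) + 3) ^ 2 * 2 ^ (t + 2)) / (N : ℝ)) * 2 ^ (2 * t - 3)) := by
      have e2 : (N : ℝ) ^ (3 * t) = (N : ℝ) ^ (t + 3) * (N : ℝ) ^ (2 * t - 3) := by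
        rw [← pow_add]
        congr 1
        omega
      have e3 : (N : ℝ) ^ (t + 3) = (N : ℝ) ^ (t + 2) * N := by ring
      rw [e2, mul_pow, mul_pow, e3]
      field_simp
    have e4 : ((N : ℝ) ^ 3 * b - 9 * (2 * N) ^ 2) ^ t =
        (N : ℝ) ^ (3 * t) * (b - 36 / (N : ℝ)) ^ t := by
      rw [pow_mul, ← mul_pow]
      congr 1
      field_simp
      ring
    rw [e1, e4]
    exact mul_lt_mul_of_pos_left hlt (by positivity))
  refine ⟨N, by omega, rel (Wb q N) θ, ?_, ?_, hθ⟩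
  · intro x y h
    unfold rel at h ⊢
    rw [Sym2.eq_swap]
    exact h
  · have hsame : ∀ (c : Bool) (i j : Fin N), rel (Wb q N) θ (c, i) (c, j) := by
      intro c i j
      unfold rel
      rw [Wb_mk, if_pos rfl]
      exact (θ _).isLt
    have hinj : Function.Injective (fun p : Bool × (Fin 3 → Fin N) =>
        (fun i => (p.1, p.2 i) : Fin 3 → Bool × Fin N)) := by
      rintro ⟨c, x⟩ ⟨d, y⟩ h
      have h0 := congrFun h 0
      simp only [Prod.mk.injEq] at h0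
      rw [Prod.mk.injEq]
      refine ⟨h0.1, ?_⟩
      funext i
      have := congrFun h i
      simp only [Prod.mk.injEq] at this
      exact this.2
    have hle : (Set.range (fun p : Bool × (Fin 3 → Fin N) =>
        (fun i => (p.1, p.2 i) : Fin 3 → Bool × Fin N))).ncard ≤
        (HomB (rel (Wb q N) θ)).ncard := by
      apply Set.ncard_le_ncard _ (Set.toFinite _)
      rintro _ ⟨p, rfl⟩
      exact ⟨hsame _ _ _, hsame _ _ _, hsame _ _ _⟩
    rw [← Set.image_univ, Set.ncard_image_of_injective _ hinj, Set.ncard_univ,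
      Nat.card_eq_fintype_card, Fintype.card_prod, Fintype.card_bool, Fintype.card_fun,
      Fintype.card_fin, Fintype.card_fin] at hle
    have hle' : (2 : ℝ) * (N : ℝ) ^ 3 ≤ ((HomB (rel (Wb q N) θ)).ncard : ℝ) := by
      exact_mod_cast hle
    rw [hcard]
    have h5 : 0 < (N : ℝ) ^ 2 := by positivity
    have h6 : (36 : ℝ) * (N : ℝ) ^ 2 ≤ N * (N : ℝ) ^ 2 :=
      mul_le_mul_of_nonneg_right hNr (by positivity)
    have h7 : (N : ℝ) * (N : ℝ) ^ 2 = (N : ℝ) ^ 3 := by ring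
    have h8' : (2 * (N : ℝ)) ^ 2 = 4 * (N : ℝ) ^ 2 := by ring
    rw [h8']
    linarith

end Q117.K3t
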