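import Mathlib
import Pool.Agent.Q117.K3t.Block

set_option autoImplicit false

namespace Q117.K3t

open SimpleGraph Finset

variable {V₀ : Type} [Fintype V₀]

/-- The `m`-th tensor power of the relation `R`, times the triangle. -/
def TG (R : V₀ → V₀ → Prop) (hR : ∀ x y, R x y → R y x) (m : ℕ) :
    SimpleGraph ((Fin m → V₀) × Fin 3) where
  Adj p q := (∀ k, R (p.1 k) (q.1 k)) ∧ p.2 ≠ q.2
  symm := ⟨fun _ _ h => ⟨fun k => hR _ _ (h.1 k), h.2.symm⟩⟩
  loopless := ⟨fun _ h => h.2 rfl⟩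

/-- the triangle attached to a tuple of triangles -/
def triCopy (R : V₀ → V₀ → Prop) (hR : ∀ x y, R x y → R y x) (m : ℕ)
    (τ : Fin m → HomB R) : Copy (⊤ : SimpleGraph (Fin 3)) (TG R hR m) where
  toHom :=
    { toFun := fun i => (fun k => (τ k).1 i, i)
      map_rel' := by
        intro i j hij
        have hne : i ≠ j := hij
        refine ⟨fun k => ?_, hne⟩
        have h := (τ k).2
        have h01 : R ((τ k).1 0) ((τ k).1 1) := h.1
        have h02 : R ((τ k).1 0) ((τ k).1 2) := h.2.1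
        have h12 : R ((τ k).1 1) ((τ k).1 2) := h.2.2
        fin_cases i <;> fin_cases j
        · exact absurd rfl hne
        · exact h01
        · exact h02
        · exact hR _ _ h01
        · exact absurd rfl hne
        · exact h12
        · exact hR _ _ h02
        · exact hR _ _ h12
        · exact absurd rfl hne }
  injective' := by
    intro i j h
    exact congrArg Prod.snd h

lemma triCopy_apply (R : V₀ → V₀ → Prop) (hR : ∀ x y, R x y → R y x) (m : ℕ)
    (τ : Fin m → HomB R) (i : Fin 3) :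
    (triCopy R hR m τ).toHom i = (fun k => (τ k).1 i, i) := rfl

lemma lower (R : V₀ → V₀ → Prop) (hR : ∀ x y, R x y → R y x) (m : ℕ) :
    (HomB R).ncard ^ m ≤ (TG R hR m).copyCount (⊤ : SimpleGraph (Fin 3)) := by
  classical
  rw [copyCount_eq_card_image_copyToSubgraph]
  have h1 : (HomB R).ncard ^ m = (univ : Finset (Fin m → HomB R)).card := by
    rw [Finset.card_univ, Fintype.card_fun, Fintype.card_fin, Set.ncard_eq_toFinset_card',
      Set.toFinset_card]
  rw [h1]
  apply Finset.card_le_card_of_injOn (fun τ => (triCopy R hR m τ).toSubgraph)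
  · intro τ _
    rw [Finset.mem_coe, Finset.mem_image]
    exact ⟨_, mem_univ _, rfl⟩
  · intro τ _ σ _ h
    have hv : (triCopy R hR m τ).toSubgraph.verts = (triCopy R hR m σ).toSubgraph.verts := by
      simp only at h
      rw [h]
    funext k
    apply Subtype.ext
    funext i
    have hmem : (triCopy R hR m τ).toHom i ∈ (triCopy R hR m τ).toSubgraph.verts := by
      simp
    rw [hv] at hmem
    simp only [Copy.toSubgraph, Subgraph.map_verts, Subgraph.verts_top, Set.image_univ,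
      Set.mem_range] at hmem
    obtain ⟨j, hj⟩ := hmem
    rw [triCopy_apply, triCopy_apply, Prod.mk.injEq] at hj
    obtain ⟨hj1, hj2⟩ := hj
    subst hj2
    exact (congrFun hj1 k).symm

lemma copy_adj (R : V₀ → V₀ → Prop) (hR : ∀ x y, R x y → R y x) (m t : ℕ)
    (f : Copy (completeBipartiteGraph (Fin 3) (Fin t)) (TG R hR m)) (i : Fin 3) (j : Fin t) :
    (TG R hR m).Adj (f.toHom (Sum.inl i)) (f.toHom (Sum.inr j)) := by
  apply f.toHom.map_rel
  simp [completeBipartiteGraph]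

/-- coordinates of a copy of `K_{3,t}` -/
def Phi (R : V₀ → V₀ → Prop) (hR : ∀ x y, R x y → R y x) (m t : ℕ)
    (f : Copy (completeBipartiteGraph (Fin 3) (Fin t)) (TG R hR m)) :
    (Fin m → HomA R t) × ((Fin 3 → Fin 3) × (Fin t → Fin 3)) :=
  (fun k => ⟨(fun i => (f.toHom (Sum.inl i)).1 k, fun j => (f.toHom (Sum.inr j)).1 k),
      fun i j => (copy_adj R hR m t f i j).1 k⟩,
      (fun i => (f.toHom (Sum.inl i)).2, fun j => (f.toHom (Sum.inr j)).2))

lemma Phi_inj (R : V₀ → V₀ → Prop) (hR : ∀ x y, R x y → R y x) (m t : ℕ) :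
    Function.Injective (Phi R hR m t) := by
  intro f g h
  have h1 := congrArg Prod.fst h
  have h2 := congrArg Prod.snd h
  have hfg : ∀ x, f.toHom x = g.toHom x := by
    intro x
    cases x with
    | inl i =>
      apply Prod.ext
      · funext k
        have e1 := congrFun h1 k
        exact congrArg (fun z : HomA R t => z.1.1 i) e1
      · exact congrArg (fun z : (Fin 3 → Fin 3) × (Fin t → Fin 3) => z.1 i) h2
    | inr j =>
      apply Prod.ext
      · funext k
        have e1 := congrFun h1 k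
        exact congrArg (fun z : HomA R t => z.1.2 j) e1
      · exact congrArg (fun z : (Fin 3 → Fin 3) × (Fin t → Fin 3) => z.2 j) h2
  apply Copy.ext
  intro x
  exact hfg x

lemma card_target (R : V₀ → V₀ → Prop) (m t : ℕ) :
    Nat.card ((Fin m → HomA R t) × ((Fin 3 → Fin 3) × (Fin t → Fin 3))) =
      (HomA R t).ncard ^ m * 3 ^ (t + 3) := by
  rw [Nat.card_prod, Nat.card_prod, Nat.card_fun, Nat.card_fun, Nat.card_fun, Nat.card_fin,
    Nat.card_fin, Nat.card_fin, pow_add, Nat.card_coe_set_eq]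
  ring

lemma labelled_eq {V W : Type} [Fintype V] [Fintype W] (G : SimpleGraph V)
    (H : SimpleGraph W) : G.labelledCopyCount H = Nat.card (Copy H G) := by
  classical
  unfold labelledCopyCount
  rw [Nat.card_eq_fintype_card]

lemma upper (R : V₀ → V₀ → Prop) (hR : ∀ x y, R x y → R y x) (m t : ℕ) :
    (TG R hR m).copyCount (completeBipartiteGraph (Fin 3) (Fin t)) ≤
      (HomA R t).ncard ^ m * 3 ^ (t + 3) := by
  have h1 := labelled_eq (TG R hR m) (completeBipartiteGraph (Fin 3) (Fin t))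
  have h2 := Nat.card_le_card_of_injective (Phi R hR m t) (Phi_inj R hR m t)
  rw [card_target, ← h1] at h2
  exact copyCount_le_labelledCopyCount.trans h2

/-- The quantitative statement for one relation. -/
theorem amplify (t : ℕ) (R : V₀ → V₀ → Prop) (hR : ∀ x y, R x y → R y x)
    (h2 : 2 ≤ Fintype.card V₀)
    (hB : (Fintype.card V₀ : ℝ) ^ 2 < (HomB R).ncard) (ht : 3 ≤ 2 * t)
    (hA : ((HomA R t).ncard : ℝ) * (Fintype.card V₀ : ℝ) ^ (2 * t - 3) <
        ((HomB R).ncard : ℝ) ^ t) :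
    ∃ δ : ℝ, 0 < δ ∧ ∀ (k₀ : ℝ) (n₀ : ℕ), ∃ m : ℕ,
      n₀ ≤ Fintype.card ((Fin m → V₀) × Fin 3) ∧ ∃ k : ℝ, k₀ ≤ k ∧ 0 < k ∧
      ((TG R hR m).copyCount (⊤ : SimpleGraph (Fin 3)) : ℝ) =
        k * (Fintype.card ((Fin m → V₀) × Fin 3) : ℝ) ^ 2 ∧
      ((TG R hR m).copyCount (completeBipartiteGraph (Fin 3) (Fin t)) : ℝ) <
        k ^ t * (Fintype.card ((Fin m → V₀) × Fin 3) : ℝ) ^ (3 - δ) := by
  set n : ℝ := (Fintype.card V₀ : ℝ) with hn
  set a : ℝ := ((HomA R t).ncard : ℝ) with ha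
  set b : ℝ := ((HomB R).ncard : ℝ) with hb
  have hn2 : (2 : ℝ) ≤ n := by rw [hn]; exact_mod_cast h2
  have hn0 : 0 < n := by linarith
  have ha0 : 0 ≤ a := by positivity
  have hb0 : 0 < b := by nlinarith
  -- choice of δ
  have hcont : Filter.Tendsto (fun δ : ℝ => a * n ^ (2 * t - 3) * n ^ δ) (nhds 0)
      (nhds (a * n ^ (2 * t - 3) * n ^ (0 : ℝ))) := by
    apply Filter.Tendsto.const_mul
    exact (Real.continuous_const_rpow hn0.ne').tendsto 0
  rw [Real.rpow_zero, mul_one] at hcont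
  have hev : ∀ᶠ δ in nhds (0 : ℝ), a * n ^ (2 * t - 3) * n ^ δ < b ^ t :=
    hcont.eventually_lt_const hA
  obtain ⟨r, hr0, hr⟩ := Metric.eventually_nhds_iff.1 hev
  set δ := r / 2 with hδ
  have hδ0 : 0 < δ := by positivity
  have hδr : a * n ^ (2 * t - 3) * n ^ δ < b ^ t := by
    apply hr
    rw [Real.dist_eq, sub_zero, abs_of_pos hδ0, hδ]
    linarith
  refine ⟨δ, hδ0, ?_⟩
  intro k₀ n₀
  set e : ℝ := 3 - δ - 2 * t with he
  set X : ℝ := b ^ t * n ^ e with hX
  have hX0 : 0 < X := by positivity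
  have hnn : (n : ℝ) ^ (2 * t - 3) * n ^ δ * n ^ e = 1 := by
    rw [← Real.rpow_natCast, ← Real.rpow_add hn0, ← Real.rpow_add hn0]
    have : ((2 * t - 3 : ℕ) : ℝ) + δ + e = 0 := by
      rw [he, Nat.cast_sub ht]
      push_cast
      ring
    rw [this, Real.rpow_zero]
  have haX : a < X := by
    have h1 := mul_lt_mul_of_pos_right hδr (show 0 < n ^ e by positivity)
    calc a = a * ((n : ℝ) ^ (2 * t - 3) * n ^ δ * n ^ e) := by rw [hnn, mul_one]
      _ = a * n ^ (2 * t - 3) * n ^ δ * n ^ e := by ring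
      _ < b ^ t * n ^ e := h1
  set ρ : ℝ := a / X with hρ
  have hρ0 : 0 ≤ ρ := by positivity
  have hρ1 : ρ < 1 := by rw [hρ, div_lt_one hX0]; exact haX
  have hlim1 : Filter.Tendsto (fun m : ℕ => ρ ^ m * 3 ^ (t + 3)) Filter.atTop
      (nhds (0 * 3 ^ (t + 3))) := (tendsto_pow_atTop_nhds_zero_of_lt_one hρ0 hρ1).mul_const _
  rw [zero_mul] at hlim1
  have hev1 := hlim1.eventually_lt_const (show (0 : ℝ) < 3 ^ e by positivity)
  have hb1 : 1 < b / n ^ 2 := by
    rw [one_lt_div (by positivity)]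
    exact hB
  have hlim2 := (tendsto_pow_atTop_atTop_of_one_lt hb1).eventually_ge_atTop (9 * max k₀ 1)
  obtain ⟨m, ⟨hm1, hm2⟩, hm3⟩ := ((hev1.and hlim2).and (Filter.eventually_ge_atTop n₀)).exists
  refine ⟨m, ?_, ?_⟩
  · rw [Fintype.card_prod, Fintype.card_fun, Fintype.card_fin, Fintype.card_fin]
    have : m < 2 ^ m := Nat.lt_two_pow_self
    have : 2 ^ m ≤ (Fintype.card V₀) ^ m := Nat.pow_le_pow_left h2 m
    omega
  have hcard : (Fintype.card ((Fin m → V₀) × Fin 3) : ℝ) = 3 * n ^ m := by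
    rw [Fintype.card_prod, Fintype.card_fun, Fintype.card_fin, Fintype.card_fin, hn]
    push_cast
    ring
  rw [hcard]
  have hnm : 0 < n ^ m := by positivity
  set C : ℝ := ((TG R hR m).copyCount (⊤ : SimpleGraph (Fin 3)) : ℝ) with hC
  have hClow : b ^ m ≤ C := by
    rw [hb, hC]
    exact_mod_cast lower R hR m
  have hup : ((TG R hR m).copyCount (completeBipartiteGraph (Fin 3) (Fin t)) : ℝ) ≤
      a ^ m * 3 ^ (t + 3) := by
    rw [ha]
    exact_mod_cast upper R hR m t
  have hbm : 0 < b ^ m := by positivity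
  have hkb : (b / n ^ 2) ^ m / 9 ≤ C / (3 * n ^ m) ^ 2 := by
    have e1 : (b / n ^ 2) ^ m / 9 = b ^ m / (3 * n ^ m) ^ 2 := by
      rw [div_pow]
      rw [div_div]
      congr 1
      ring
    rw [e1]
    exact div_le_div_of_nonneg_right hClow (by positivity)
  refine ⟨C / (3 * n ^ m) ^ 2, ?_, ?_, ?_, ?_⟩
  · refine le_trans ?_ hkb
    rw [le_div_iff₀ (by norm_num)]
    have := le_max_left k₀ 1
    linarith
  · refine lt_of_lt_of_le ?_ hkb
    positivity
  · field_simp
  · refine lt_of_le_of_lt hup ?_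
    have hN0 : 0 < 3 * n ^ m := by positivity
    have e1 : (C / (3 * n ^ m) ^ 2) ^ t * (3 * n ^ m) ^ (3 - δ) =
        C ^ t * (3 * n ^ m) ^ e := by
      rw [div_pow, ← pow_mul, he]
      have : (3 * n ^ m) ^ (3 - δ - 2 * (t : ℝ)) = (3 * n ^ m) ^ (3 - δ) / (3 * n ^ m) ^ (2 * t) := by
        rw [Real.rpow_sub hN0]
        congr 1
        have : (2 : ℝ) * (t : ℝ) = ((2 * t : ℕ) : ℝ) := by push_cast; ring
        rw [this, Real.rpow_natCast]
      rw [this]
      field_simp
    have e2 : (3 * n ^ m) ^ e = 3 ^ e * (n ^ e) ^ m := by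
      rw [Real.mul_rpow (by norm_num) hnm.le, ← Real.rpow_natCast n m, ← Real.rpow_natCast (n ^ e) m,
        ← Real.rpow_mul hn0.le, ← Real.rpow_mul hn0.le, mul_comm e]
    have e3 : (b ^ m) ^ t ≤ C ^ t := pow_le_pow_left₀ hbm.le hClow t
    have e4 : a ^ m = ρ ^ m * X ^ m := by
      rw [← mul_pow, hρ, div_mul_cancel₀ _ hX0.ne']
    rw [e1, e2]
    calc a ^ m * 3 ^ (t + 3) = (ρ ^ m * 3 ^ (t + 3)) * X ^ m := by rw [e4]; ring
      _ < 3 ^ e * X ^ m := mul_lt_mul_of_pos_right hm1 (by positivity)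
      _ = (b ^ m) ^ t * (3 ^ e * (n ^ e) ^ m) := by rw [hX]; ring
      _ ≤ C ^ t * (3 ^ e * (n ^ e) ^ m) := mul_le_mul_of_nonneg_right e3 (by positivity)

end Q117.K3t
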